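import Pool.Agent.N427.PT.Main

/-!
# MP_dd2a7c_co: polynomially many translates of a progression of dimension O(log K)

In the starting result `NearPFR` of this problem the volume of the progression is at most `|A|` and the
number of the translates is `(2K)^(O(1 + log(1 + log 2K)))`. Here the number of the translates is
polynomial in `K` and the dimension is `O(log K)`, for every set in every abelian group, and the loss is
moved to the volume, which is at most `exp(O((log 2K)^(1+η))) |A|`, for every `η > 0`. So all sets with
`log |A|` large compared with `(log 2K)^(1+η)` satisfy the conclusion of Q1 with volume `|A|^(1+o(1))` in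
place of `|A|`. The constants are `O(1/η)`, and `η = 1 / (1 + log (1 + log 2K))` gives `NearPFR` back, up
to the constants (a coset progression of dimension `O(log K)` and volume `(2K)^c |A|` is covered by
`(2K)^(O(1 + c + log(1 + log 2K)))` translates of a dilate of volume at most `|A|`).

Proof. For a fixed `η` the pair of laws on `A` that nearly minimises
`H(Y₁ + Y₂) - (1 + η)/2 (H(Y₁) + H(Y₂))` has entropies at least `log |A| - (2/η) log 2K`, and the entropy of
the sum of `n` copies of `Y₁ + Y₂` grows at most like `(4/η) n^(3η/2) log 2K`. For `n` a little larger than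
`log K` the sum is nearly invariant under the elements of a subset `E` of `A` with
`|E| ≥ K^(-O(1/η)) |A|`, so the differences of `E` are in the Bohr set of its large spectrum, which has
at most `exp(O((log 2K)^(1+η)/η)) |A|` elements and is a convex coset progression, of too large a dimension.
It is proper, so `E` lifts to a set in `ℤ^m × H` with small doubling. The weak Marton theorem (starting
result `WeakMarton`) is applied to the lift: its exceptional elements of odd order are in `H`. So a large
part of `E` is in a section of rank `O(log K / η)` of the progression.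
-/

set_option autoImplicit false

open scoped Pointwise

universe u

namespace Pool.Agent.Results.MP_dd2a7c_co.PolynomiallyManyTranslates

/-- Let `0 < η ≤ 1`. In an arbitrary abelian group every finite nonempty set `A` with `|A + A| ≤ K |A|` is
covered by `(2K)^(5000/η)` translates of a centred convex coset progression of dimension at most
`(13000/η) log 2K` and volume at most `exp((2·10^10/η) (log 2K)^(1+η)) |A|`. -/
theorem result {Γ : Type u} [AddCommGroup Γ] [DecidableEq Γ] (η : ℝ) (hη0 : 0 < η) (hη1 : η ≤ 1)
    (K : ℝ) (A : Finset Γ) (hA : A.Nonempty) (hK : ((A + A).card : ℝ) ≤ K * (A.card : ℝ)) :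
    ∃ (d : ℕ) (B : Set (Fin d → ℝ)) (ψ : (Fin d → ℤ) →+ Γ) (H : AddSubgroup Γ) (T : Finset Γ),
      (d : ℝ) ≤ 13000 / η * Real.log (2 * K) ∧
      Convex ℝ B ∧ IsCompact B ∧ (interior B).Nonempty ∧ (∀ x ∈ B, -x ∈ B) ∧
      Finite H ∧
      (({x : Fin d → ℤ | (fun i => (x i : ℝ)) ∈ B}.ncard * Nat.card H : ℕ) : ℝ) ≤
        Real.exp (20000000000 / η * Real.log (2 * K) ^ (1 + η)) * A.card ∧
      (T.card : ℝ) ≤ (2 * K) ^ (5000 / η) ∧
      ∀ a ∈ A, ∃ t ∈ T, ∃ x : Fin d → ℤ, (fun i => (x i : ℝ)) ∈ B ∧
        ∃ h ∈ H, a = t + ψ x + h := by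
  obtain ⟨d, B, ψ, H, T, hd, hB, -, hH, hvol, hT, hcov⟩ :=
    Pool.Agent.N427.PT.main hA hK hη0 hη1
  refine ⟨d, B, ψ, H, T, hd, hB.1, hB.2.1, hB.2.2.1, hB.2.2.2, hH, ?_, hT, ?_⟩
  · rw [Nat.cast_mul]
    exact hvol
  · intro a ha
    obtain ⟨t, ht, x, hx, h, hh, e⟩ := hcov a ha
    exact ⟨t, ht, x, hx, h, hh, e⟩

end Pool.Agent.Results.MP_dd2a7c_co.PolynomiallyManyTranslates
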